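import Pool.Agent.Lib.MP_43d240_ag.H56.Defs

/-! Project PI, chapter PAR, module H5: an element of all valuation rings is a constant. -/

set_option autoImplicit false

namespace PiPar

/-- An element of all valuation rings of `N` over the algebraically closed field `k` is in `k`. -/
theorem mem_range_of_forall_valuationSubring (k : Type*) [Field k] [IsAlgClosed k] {N : Type*}
    [Field N] [Algebra k N] (f : N)
    (hf : ∀ A : ValuationSubring N, (∀ c : k, algebraMap k N c ∈ A) → f ∈ A) :
    f ∈ Set.range (algebraMap k N) := by
  have h1 : f ∈ (integralClosure k N).toSubring := by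
    by_contra hn
    obtain ⟨V, hV, hfV⟩ := Subring.exists_le_valuationSubring_of_isIntegrallyClosedIn hn
    apply hfV
    apply hf V
    intro c
    exact hV ((integralClosure k N).algebraMap_mem c)
  have h2 : IsIntegral k f := h1
  exact IsIntegral.mem_range_algebraMap_of_minpoly_splits h2
    (IsAlgClosed.splits _)

end PiPar
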